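import Pool.Agent.helper21.WB.LibB
import Pool.Agent.H48.WB.Z0

/-!
WB-I1 (MP_7b8095_gt, project of helper21): for `A ∈ so(4,1)` the function `|A|_y^(-5/2)` on
hyperbolic four space is strictly superharmonic, in the mean value form for small balls.
-/

set_option autoImplicit false
open Matrix MeasureTheory

namespace Pool.Agent.helper21.WB.MV

/-! ### scalar inequality -/

theorem poly_ineq {e : ℝ} (h1 : -(1/20) ≤ e) :
    1 ≤ (1+e)^5 * (1 - 5/4*e + 3/2*e^2)^4 := by
  have key : (1+e)^5 * (1 - 5/4*e + 3/2*e^2)^4 = 1 + e^2 * ((3/8 + 105/16*e)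
      + e^2 * (321/256 + 381/256 * e) + e^4 * (2133/128 + 753/128 * e)
      + e^6 * (501/256 + 4921/256*e) + e^8 * (75/8 + 27/32 * e) + e^10 * (135/16 + 81/16*e)) := by
    ring
  rw [key]
  have a1 : 0 ≤ 3/8 + 105/16*e := by linarith
  have a2 : 0 ≤ 321/256 + 381/256 * e := by linarith
  have a3 : 0 ≤ 2133/128 + 753/128 * e := by linarith
  have a4 : 0 ≤ 501/256 + 4921/256*e := by linarith
  have a5 : 0 ≤ 75/8 + 27/32 * e := by linarith
  have a6 : 0 ≤ 135/16 + 81/16*e := by linarith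
  have e2 : 0 ≤ e^2 := sq_nonneg e
  have e4 : 0 ≤ e^4 := by positivity
  have e6 : 0 ≤ e^6 := by positivity
  have e8 : 0 ≤ e^8 := by positivity
  have e10 : 0 ≤ e^10 := by positivity
  have := mul_nonneg e2 (add_nonneg (add_nonneg (add_nonneg (add_nonneg (add_nonneg a1
    (mul_nonneg e2 a2)) (mul_nonneg e4 a3)) (mul_nonneg e6 a4)) (mul_nonneg e8 a5))
    (mul_nonneg e10 a6))
  linarith

theorem rpow_ineq {e : ℝ} (h1 : -(1/20) ≤ e) :
    (1+e) ^ (-(5/4) : ℝ) ≤ 1 - 5/4*e + 3/2*e^2 := by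
  have hp : 0 < 1 + e := by linarith
  have hq : 0 < 1 - 5/4*e + 3/2*e^2 := by nlinarith [sq_nonneg e]
  have hx : 0 < (1+e) ^ (-(5/4) : ℝ) := Real.rpow_pos_of_pos hp _
  have h4 : ((1+e) ^ (-(5/4) : ℝ))^4 * (1+e)^5 = 1 := by
    rw [← Real.rpow_natCast, ← Real.rpow_mul hp.le, ← Real.rpow_natCast (1+e) 5,
      ← Real.rpow_add hp]
    norm_num
  have h5 := poly_ineq h1
  have hp5 : 0 < (1+e)^5 := by positivity
  have h6 : ((1+e) ^ (-(5/4) : ℝ))^4 ≤ (1 - 5/4*e + 3/2*e^2)^4 := by
    have : ((1+e) ^ (-(5/4) : ℝ))^4 * (1+e)^5 ≤ (1 - 5/4*e + 3/2*e^2)^4 * (1+e)^5 := by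
      rw [h4]; linarith
    exact le_of_mul_le_mul_right this hp5
  exact le_of_pow_le_pow_left₀ (by norm_num) hq.le h6

/-! ### structure of `so(4,1)` -/

theorem so_anti {A : Mat} (hA : IsSo A) (i j : Fin 4) :
    A (Sum.inl j) (Sum.inl i) = - A (Sum.inl i) (Sum.inl j) := by
  have h := congrFun (congrFun hA (Sum.inl i)) (Sum.inl j)
  simp [J, Matrix.mul_apply, Matrix.fromBlocks, Fintype.sum_sum_type, Matrix.one_apply] at h
  linarith

theorem so_symm {A : Mat} (hA : IsSo A) (i : Fin 4) :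
    A o (Sum.inl i) = A (Sum.inl i) o := by
  have h := congrFun (congrFun hA (Sum.inl i)) o
  simp [J, Matrix.mul_apply, Matrix.fromBlocks, Fintype.sum_sum_type, Matrix.one_apply] at h
  linarith

theorem so_oo {A : Mat} (hA : IsSo A) : A o o = 0 := by
  have h := congrFun (congrFun hA o) o
  simp [J, Matrix.mul_apply, Matrix.fromBlocks, Fintype.sum_sum_type] at h
  linarith

/-- the spatial block of `A` -/
def Bm (A : Mat) (i j : Fin 4) : ℝ := A (Sum.inl i) (Sum.inl j)

/-- the boost part of `A` -/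
def uv (A : Mat) (i : Fin 4) : ℝ := A (Sum.inl i) o

/-- square of the Frobenius norm of the spatial block -/
def bb (A : Mat) : ℝ := ∑ i, ∑ j, Bm A i j ^ 2

/-- square of the norm of the boost part -/
def UU (A : Mat) : ℝ := ∑ i, uv A i ^ 2

/-- `|z|²` -/
def sq (z : X) : ℝ := ∑ i, z i ^ 2

/-- `B z` -/
def Bz (A : Mat) (z : X) (i : Fin 4) : ℝ := ∑ j, Bm A i j * z j

/-- the even second order part (up to the factor 4) -/
def q2 (A : Mat) (z : X) : ℝ := sq z * UU A + ∑ i, Bz A z i ^ 2 - (∑ i, uv A i * z i) ^ 2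

/-- the odd part (up to the factor `8 z₀`) -/
def q1 (A : Mat) (z : X) : ℝ := ∑ i, uv A i * Bz A z i

theorem bl_formula {A : Mat} (hA : IsSo A) (z : X) :
    bl (A *ᵥ lift z) (A *ᵥ lift z) = q2 A z + UU A + 2 * lift z o * q1 A z := by
  have h1 : ∀ i : Fin 4, (A *ᵥ lift z) (Sum.inl i) = Bz A z i + uv A i * lift z o := by
    intro i
    rw [Matrix.mulVec, dotProduct, Fintype.sum_sum_type]
    simp [Bz, Bm, uv, lift_inl]
  have h2 : (A *ᵥ lift z) o = ∑ i, uv A i * z i := by
    rw [Matrix.mulVec, dotProduct, Fintype.sum_sum_type]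
    simp only [Finset.univ_unique, Finset.sum_singleton, lift_inl]
    have : A o (Sum.inr default) = 0 := so_oo hA
    rw [this, zero_mul, add_zero]
    exact Finset.sum_congr rfl (fun i _ => by rw [so_symm hA i]; rfl)
  rw [bl_apply, h2]
  simp only [h1]
  have h3 : ∑ i : Fin 4, (Bz A z i + uv A i * lift z o) * (Bz A z i + uv A i * lift z o)
      = ∑ i, Bz A z i ^ 2 + 2 * lift z o * ∑ i, uv A i * Bz A z i + lift z o ^ 2 * ∑ i, uv A i ^ 2 := by
    rw [Finset.mul_sum, Finset.mul_sum, ← Finset.sum_add_distrib, ← Finset.sum_add_distrib]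
    exact Finset.sum_congr rfl (fun i _ => by ring)
  rw [h3, lift_o_sq]
  unfold q2 q1 UU sq
  ring

theorem trace_formula {A : Mat} (hA : IsSo A) :
    Matrix.trace (A * A) = 2 * UU A - bb A := by
  rw [Matrix.trace, Fintype.sum_sum_type]
  simp only [Matrix.diag_apply, Matrix.mul_apply, Fintype.sum_sum_type, Finset.univ_unique,
    Finset.sum_singleton]
  have e1 : ∀ i : Fin 4, A (Sum.inl i) (Sum.inr default) * A (Sum.inr default) (Sum.inl i)
      = uv A i ^ 2 := by
    intro i
    have := so_symm hA i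
    show uv A i * A o (Sum.inl i) = _
    rw [this]
    show uv A i * uv A i = _
    ring
  have e2 : ∀ i : Fin 4, A (Sum.inr default) (Sum.inl i) * A (Sum.inl i) (Sum.inr default)
      = uv A i ^ 2 := by
    intro i
    rw [mul_comm, e1]
  have e3 : A (Sum.inr default) (Sum.inr default) = 0 := so_oo hA
  have e4 : ∀ i j : Fin 4, A (Sum.inl i) (Sum.inl j) * A (Sum.inl j) (Sum.inl i)
      = - Bm A i j ^ 2 := by
    intro i j
    rw [so_anti hA i j]
    unfold Bm; ring
  simp only [e1, e2, e3, e4, Finset.sum_add_distrib, Finset.sum_neg_distrib]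
  unfold UU bb
  ring

theorem norm_formula {A : Mat} (hA : IsSo A) (z : X) :
    nrm z A ^ 2 = (bb A + 2 * UU A) + 4 * q2 A z + 8 * lift z o * q1 A z := by
  rw [nrm_sq_of_so hA, bl_formula hA, trace_formula hA]
  ring

theorem UU_nonneg (A : Mat) : 0 ≤ UU A := Finset.sum_nonneg (fun _ _ => sq_nonneg _)

theorem bb_nonneg (A : Mat) : 0 ≤ bb A :=
  Finset.sum_nonneg (fun _ _ => Finset.sum_nonneg (fun _ _ => sq_nonneg _))

theorem sq_nn (z : X) : 0 ≤ sq z := Finset.sum_nonneg (fun _ _ => sq_nonneg _)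

/-- operator norm versus Frobenius norm for an antisymmetric matrix of size four -/
theorem anti_bound {A : Mat} (hA : IsSo A) (z : X) :
    2 * ∑ i, Bz A z i ^ 2 ≤ bb A * sq z := by
  have h : ∀ i j : Fin 4, Bm A j i = - Bm A i j := fun i j => so_anti hA i j
  have h0 : ∀ i, Bm A i i = 0 := by
    intro i; have := h i i; linarith
  unfold bb sq Bz
  simp only [Fin.sum_univ_four]
  rw [h 0 1, h 0 2, h 0 3, h 1 2, h 1 3, h 2 3, h0 0, h0 1, h0 2, h0 3]
  generalize Bm A 0 1 = a
  generalize Bm A 0 2 = b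
  generalize Bm A 0 3 = c
  generalize Bm A 1 2 = d
  generalize Bm A 1 3 = e
  generalize Bm A 2 3 = f
  generalize z 0 = x
  generalize z 1 = y
  generalize z 2 = v
  generalize z 3 = w
  have t1 := sq_nonneg (x * d - y * b + v * a)
  have t2 := sq_nonneg (x * e - y * c + w * a)
  have t3 := sq_nonneg (x * f - v * c + w * b)
  have t4 := sq_nonneg (y * f - v * e + w * d)
  nlinarith [t1, t2, t3, t4]

/-- the same for the transposed matrix -/
theorem anti_bound' {A : Mat} (hA : IsSo A) :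
    2 * ∑ j, (∑ i, uv A i * Bm A i j) ^ 2 ≤ bb A * UU A := by
  have h : ∀ i j : Fin 4, Bm A j i = - Bm A i j := fun i j => so_anti hA i j
  have e : ∀ j, (∑ i, uv A i * Bm A i j) ^ 2 = Bz A (uv A) j ^ 2 := by
    intro j
    unfold Bz
    rw [← neg_sq, ← Finset.sum_neg_distrib]
    congr 1
    exact Finset.sum_congr rfl (fun i _ => by rw [h i j]; ring)
  simp only [e]
  exact anti_bound hA (uv A)

/-! ### symmetries of the measure -/

theorem mp_withDensity {φ : X → X} (hφ : MeasurePreserving φ (volume : Measure X) volume)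
    {d : X → ENNReal} (hd : Measurable d) (h : ∀ z, d (φ z) = d z) :
    MeasurePreserving φ ((volume : Measure X).withDensity d) ((volume : Measure X).withDensity d) := by
  refine ⟨hφ.measurable, ?_⟩
  ext s hs
  rw [Measure.map_apply hφ.measurable hs, withDensity_apply _ (hφ.measurable hs),
    withDensity_apply _ hs, ← lintegral_indicator (hφ.measurable hs), ← lintegral_indicator hs,
    ← hφ.lintegral_comp (hd.indicator hs)]
  refine lintegral_congr (fun z => ?_)
  by_cases hz : φ z ∈ s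
  · rw [Set.indicator_of_mem (show z ∈ φ ⁻¹' s from hz), Set.indicator_of_mem hz, h]
  · rw [Set.indicator_of_notMem (show z ∉ φ ⁻¹' s from hz), Set.indicator_of_notMem hz]

theorem measurable_dens : Measurable (fun y : X => ENNReal.ofReal (1 / Real.sqrt (1 + ∑ i, y i ^ 2))) := by
  fun_prop

/-- change of sign of one coordinate -/
def flip (k : Fin 4) (z : X) : X := fun i => if i = k then - z i else z i

theorem sq_flip (k : Fin 4) (z : X) : ∑ i, flip k z i ^ 2 = ∑ i, z i ^ 2 := by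
  refine Finset.sum_congr rfl (fun i _ => ?_)
  unfold flip
  split_ifs <;> ring

theorem mp_flip_volume (k : Fin 4) : MeasurePreserving (flip k) (volume : Measure X) volume := by
  have := MeasureTheory.volume_preserving_pi (f := fun (i : Fin 4) (x : ℝ) => if i = k then - x else x)
    (fun i => by
      by_cases h : i = k
      · simp only [h, if_true]; exact Measure.measurePreserving_neg (volume : Measure ℝ)
      · simp only [h, if_false]; exact MeasurePreserving.id _)
  exact this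

theorem mp_flip (k : Fin 4) : MeasurePreserving (flip k) μ μ := by
  refine mp_withDensity (mp_flip_volume k) measurable_dens (fun z => ?_)
  rw [sq_flip]

/-- permutation of the coordinates -/
def perm (σ : Equiv.Perm (Fin 4)) (z : X) : X := fun i => z (σ i)

theorem sq_perm (σ : Equiv.Perm (Fin 4)) (z : X) : ∑ i, perm σ z i ^ 2 = ∑ i, z i ^ 2 :=
  Equiv.sum_comp σ (fun i => z i ^ 2)

theorem mp_perm_volume (σ : Equiv.Perm (Fin 4)) :
    MeasurePreserving (perm σ) (volume : Measure X) volume := by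
  have := MeasureTheory.volume_measurePreserving_piCongrLeft (fun _ : Fin 4 => ℝ) σ.symm
  convert this using 1
  funext z i
  rw [MeasurableEquiv.coe_piCongrLeft]
  have h := Equiv.piCongrLeft_apply_apply (fun _ : Fin 4 => ℝ) σ.symm z (σ i)
  rw [Equiv.symm_apply_apply] at h
  rw [h]
  rfl

theorem mp_perm (σ : Equiv.Perm (Fin 4)) : MeasurePreserving (perm σ) μ μ := by
  refine mp_withDensity (mp_perm_volume σ) measurable_dens (fun z => ?_)
  rw [sq_perm]

/-! ### the ball -/

/-- closed ball around `0` -/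
def K (t : ℝ) : Set X := {z | hd 0 z ≤ t}

theorem mem_K {t : ℝ} (ht : 0 ≤ t) (z : X) : z ∈ K t ↔ sq z ≤ Real.sinh t ^ 2 := by
  have h1 : z ∈ K t ↔ lift z o ≤ Real.cosh t := by
    rw [← ch_zero, ← cosh_hd, Real.cosh_le_cosh, abs_of_nonneg (hd_nonneg 0 z), abs_of_nonneg ht]
    rfl
  have h2 : lift z o ≤ Real.cosh t ↔ lift z o ^ 2 ≤ Real.cosh t ^ 2 := by
    rw [sq_le_sq₀ (by linarith [lift_o_pos z]) (Real.cosh_pos t).le]
  rw [h1, h2, lift_o_sq, Real.cosh_sq]
  unfold sq
  constructor <;> intro h <;> linarith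

theorem measurable_sq : Measurable sq := by unfold sq; fun_prop

theorem continuous_sq : Continuous sq := by unfold sq; fun_prop

theorem measurableSet_K {t : ℝ} (ht : 0 ≤ t) : MeasurableSet (K t) := by
  have : K t = sq ⁻¹' (Set.Iic (Real.sinh t ^ 2)) := by
    ext z; exact mem_K ht z
  rw [this]
  exact measurable_sq measurableSet_Iic

/-- the restricted measure -/
noncomputable def ν (t : ℝ) : Measure X := μ.restrict (K t)

theorem flip_pre {t : ℝ} (ht : 0 ≤ t) (k : Fin 4) : flip k ⁻¹' (K t) = K t := by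
  ext z
  rw [Set.mem_preimage, mem_K ht, mem_K ht]
  unfold sq; rw [sq_flip]

theorem perm_pre {t : ℝ} (ht : 0 ≤ t) (σ : Equiv.Perm (Fin 4)) : perm σ ⁻¹' (K t) = K t := by
  ext z
  rw [Set.mem_preimage, mem_K ht, mem_K ht]
  unfold sq; rw [sq_perm]

theorem mp_flip_ν {t : ℝ} (ht : 0 ≤ t) (k : Fin 4) : MeasurePreserving (flip k) (ν t) (ν t) := by
  have := (mp_flip k).restrict_preimage (measurableSet_K ht)
  rwa [flip_pre ht] at this

theorem mp_perm_ν {t : ℝ} (ht : 0 ≤ t) (σ : Equiv.Perm (Fin 4)) :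
    MeasurePreserving (perm σ) (ν t) (ν t) := by
  have := (mp_perm σ).restrict_preimage (measurableSet_K ht)
  rwa [perm_pre ht] at this

theorem integral_comp_mp {m : Measure X} {φ : X → X} (hφ : MeasurePreserving φ m m) {f : X → ℝ}
    (hf : Continuous f) : ∫ z, f (φ z) ∂m = ∫ z, f z ∂m := by
  have h := integral_map (μ := m) hφ.measurable.aemeasurable (f := f)
    (by rw [hφ.map_eq]; exact hf.aestronglyMeasurable)
  rw [hφ.map_eq] at h
  exact h.symm

theorem continuous_lift_o : Continuous (fun z : X => lift z o) := by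
  simp only [lift_inr]; fun_prop

theorem finite_K {t : ℝ} : μ (K t) < ⊤ := by
  have h := μ_hball 0 t
  unfold K
  rw [h]; exact ENNReal.ofReal_lt_top

instance (t : ℝ) : IsFiniteMeasure (ν t) := by
  refine ⟨?_⟩
  rw [ν, Measure.restrict_apply_univ]; exact finite_K

theorem integrable_ν {t : ℝ} {f : X → ℝ} (hf : Continuous f) : Integrable f (ν t) := by
  have hc : IsCompact (K t) := isCompact_hball 0 t
  exact hf.continuousOn.integrableOn_of_subset_isCompact hc
    hc.measurableSet subset_rfl finite_K.ne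

theorem sq_neg (z : X) : sq (-z) = sq z := by
  unfold sq
  refine Finset.sum_congr rfl (fun i _ => ?_)
  rw [Pi.neg_apply]; ring

theorem lift_o_neg (z : X) : lift (-z) o = lift z o := by
  rw [lift_inr, lift_inr]
  have := sq_neg z
  unfold sq at this
  rw [this]

theorem mp_neg_ν {t : ℝ} (ht : 0 ≤ t) : MeasurePreserving (fun z : X => -z) (ν t) (ν t) := by
  have h1 : MeasurePreserving (fun z : X => -z) μ μ := by
    refine mp_withDensity (Measure.measurePreserving_neg (volume : Measure X)) measurable_dens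
      (fun z => ?_)
    have := sq_neg z
    unfold sq at this
    rw [this]
  have := h1.restrict_preimage (measurableSet_K ht)
  have h2 : (fun z : X => -z) ⁻¹' (K t) = K t := by
    ext z
    rw [Set.mem_preimage, mem_K ht, mem_K ht, sq_neg]
  rwa [h2] at this

theorem integral_odd {t : ℝ} (ht : 0 ≤ t) {f : X → ℝ} (hf : Continuous f) (h : ∀ z, f (-z) = - f z) :
    ∫ z, f z ∂ν t = 0 := by
  have h1 := integral_comp_mp (mp_neg_ν ht) hf
  simp only [h] at h1
  rw [integral_neg] at h1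
  linarith

/-- second moments of a radial weight -/
theorem moment {t : ℝ} (ht : 0 ≤ t) {w : X → ℝ} (hw : Continuous w)
    (hflip : ∀ k z, w (flip k z) = w z) (hperm : ∀ σ z, w (perm σ z) = w z) (j k : Fin 4) :
    ∫ z, w z * (z j * z k) ∂ν t = if j = k then (∫ z, w z * sq z ∂ν t) / 4 else 0 := by
  split_ifs with hjk
  · subst hjk
    have hI : ∀ i : Fin 4, ∫ z, w z * (z i * z i) ∂ν t = ∫ z, w z * (z j * z j) ∂ν t := by
      intro i
      have h1 := integral_comp_mp (mp_perm_ν ht (Equiv.swap j i)) (f := fun z => w z * (z j * z j))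
        (by fun_prop)
      simp only [hperm, perm, Equiv.swap_apply_left] at h1
      exact h1
    have h2 : ∫ z, w z * sq z ∂ν t = ∑ i : Fin 4, ∫ z, w z * (z i * z i) ∂ν t := by
      rw [← integral_finsetSum _ (fun i _ => integrable_ν (by fun_prop))]
      refine integral_congr_ae (Filter.Eventually.of_forall (fun z => ?_))
      show w z * sq z = ∑ i : Fin 4, w z * (z i * z i)
      unfold sq
      rw [Finset.mul_sum]
      exact Finset.sum_congr rfl (fun i _ => by ring)
    rw [h2]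
    simp only [hI]
    simp
  · have h1 := integral_comp_mp (mp_flip_ν ht j) (f := fun z => w z * (z j * z k)) (by fun_prop)
    have h2 : ∀ z, w (flip j z) * (flip j z j * flip j z k) = - (w z * (z j * z k)) := by
      intro z
      rw [hflip]
      simp only [flip, if_true, if_neg (Ne.symm hjk)]
      ring
    simp only [h2] at h1
    rw [integral_neg] at h1
    linarith

theorem moment_lin {t : ℝ} (ht : 0 ≤ t) {w : X → ℝ} (hw : Continuous w)
    (hflip : ∀ k z, w (flip k z) = w z) (hperm : ∀ σ z, w (perm σ z) = w z) (a : Fin 4 → ℝ) :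
    ∫ z, w z * (∑ j, a j * z j) ^ 2 ∂ν t = (∑ j, a j ^ 2) * ((∫ z, w z * sq z ∂ν t) / 4) := by
  have h1 : ∀ z : X, w z * (∑ j, a j * z j) ^ 2 = ∑ j, ∑ k, (a j * a k) * (w z * (z j * z k)) := by
    intro z
    rw [pow_two, Finset.sum_mul_sum, Finset.mul_sum]
    refine Finset.sum_congr rfl (fun j _ => ?_)
    rw [Finset.mul_sum]
    exact Finset.sum_congr rfl (fun k _ => by ring)
  simp only [h1]
  rw [integral_finsetSum _ (fun i _ => integrable_ν (by fun_prop))]
  rw [Finset.sum_mul]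
  refine Finset.sum_congr rfl (fun j _ => ?_)
  rw [integral_finsetSum _ (fun i _ => integrable_ν (by fun_prop))]
  simp only [integral_const_mul, moment ht hw hflip hperm]
  simp only [mul_ite, mul_zero, Finset.sum_ite_eq, Finset.mem_univ, if_true]
  ring

/-! ### the second order bound, integrated -/

/-- `∫ |z|²` over the ball -/
noncomputable def M (t : ℝ) : ℝ := ∫ z, sq z ∂ν t

theorem continuous_Bz (A : Mat) (i : Fin 4) : Continuous (fun z : X => Bz A z i) := by
  unfold Bz; fun_prop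

theorem continuous_q2 (A : Mat) : Continuous (q2 A) := by
  unfold q2
  have := continuous_Bz A
  have := continuous_sq
  fun_prop

theorem continuous_q1 (A : Mat) : Continuous (q1 A) := by
  unfold q1
  have := continuous_Bz A
  fun_prop

theorem int_q2 {t : ℝ} (ht : 0 ≤ t) (A : Mat) :
    ∫ z, q2 A z ∂ν t = M t * (3 * UU A + bb A) / 4 := by
  have h1 : ∀ a : Fin 4 → ℝ, ∫ z : X, (∑ j, a j * z j) ^ 2 ∂ν t = (∑ j, a j ^ 2) * (M t / 4) := by
    intro a
    have h := moment_lin ht (w := fun _ => 1) continuous_const (fun _ _ => rfl) (fun _ _ => rfl) a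
    simp only [one_mul] at h
    exact h
  have h2 : ∫ z, q2 A z ∂ν t = (∫ z, sq z * UU A ∂ν t) + (∑ i, ∫ z, Bz A z i ^ 2 ∂ν t)
      - ∫ z : X, (∑ i, uv A i * z i) ^ 2 ∂ν t := by
    unfold q2
    have := continuous_Bz A
    have := continuous_sq
    rw [← integral_finsetSum _ (fun i _ => integrable_ν (by fun_prop)),
      ← integral_add (integrable_ν (by fun_prop)) (integrable_ν (by fun_prop)),
      ← integral_sub (integrable_ν (by fun_prop)) (integrable_ν (by fun_prop))]
  have h3 : ∀ i, ∫ z, Bz A z i ^ 2 ∂ν t = (∑ j, Bm A i j ^ 2) * (M t / 4) := fun i => h1 _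
  rw [h2, h1]
  simp only [h3, integral_mul_const]
  rw [← Finset.sum_mul]
  show M t * UU A + bb A * (M t / 4) - UU A * (M t / 4) = _
  ring

theorem q1_eq (A : Mat) (z : X) : q1 A z = ∑ j, (∑ i, uv A i * Bm A i j) * z j := by
  unfold q1 Bz
  simp only [Finset.mul_sum, Finset.sum_mul]
  rw [Finset.sum_comm]
  exact Finset.sum_congr rfl (fun j _ => Finset.sum_congr rfl (fun i _ => by ring))

theorem int_q1 {t : ℝ} (ht : 0 ≤ t) (A : Mat) :
    ∫ z, (lift z o * q1 A z) ^ 2 ∂ν t
      = (∑ j, (∑ i, uv A i * Bm A i j) ^ 2) * ((∫ z, lift z o ^ 2 * sq z ∂ν t) / 4) := by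
  have hc := continuous_lift_o
  have hl : ∀ z z' : X, sq z = sq z' → lift z o ^ 2 = lift z' o ^ 2 := by
    intro z z' h
    rw [lift_o_sq, lift_o_sq]
    unfold sq at h
    rw [h]
  rw [← moment_lin ht (w := fun z => lift z o ^ 2) (by fun_prop)
    (fun k z => hl _ _ (sq_flip k z)) (fun σ z => hl _ _ (sq_perm σ z))
    (fun j => ∑ i, uv A i * Bm A i j)]
  refine integral_congr_ae (Filter.Eventually.of_forall (fun z => ?_))
  show (lift z o * q1 A z) ^ 2 = lift z o ^ 2 * (∑ j, (∑ i, uv A i * Bm A i j) * z j) ^ 2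
  rw [mul_pow, q1_eq]

theorem q1_neg (A : Mat) (z : X) : q1 A (-z) = - q1 A z := by
  rw [q1_eq, q1_eq, ← Finset.sum_neg_distrib]
  exact Finset.sum_congr rfl (fun j _ => by rw [Pi.neg_apply]; ring)

theorem Bz_neg (A : Mat) (z : X) (i : Fin 4) : Bz A (-z) i = - Bz A z i := by
  unfold Bz
  rw [← Finset.sum_neg_distrib]
  exact Finset.sum_congr rfl (fun j _ => by rw [Pi.neg_apply]; ring)

theorem q2_neg (A : Mat) (z : X) : q2 A (-z) = q2 A z := by
  unfold q2
  rw [sq_neg]
  simp only [Bz_neg, neg_sq, Pi.neg_apply, mul_neg, Finset.sum_neg_distrib]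

theorem q2_nonneg (A : Mat) (z : X) : 0 ≤ q2 A z := by
  have h := cs_spatial (uv A) z
  have h2 : 0 ≤ ∑ i, Bz A z i ^ 2 := Finset.sum_nonneg (fun _ _ => sq_nonneg _)
  unfold q2 UU sq
  linarith [mul_comm (∑ i, uv A i ^ 2) (∑ i, z i ^ 2)]

theorem q2_le {A : Mat} (hA : IsSo A) (z : X) : q2 A z ≤ (bb A + 2 * UU A) / 2 * sq z := by
  have h := anti_bound hA z
  unfold q2
  nlinarith [sq_nonneg (∑ i, uv A i * z i)]

theorem q1_sq_le {A : Mat} (hA : IsSo A) (z : X) : 2 * q1 A z ^ 2 ≤ UU A * (bb A * sq z) := by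
  have h := anti_bound hA z
  have h2 := cs_spatial (uv A) (fun i => Bz A z i)
  have h3 : q1 A z ^ 2 ≤ UU A * ∑ i, Bz A z i ^ 2 := h2
  have h4 := UU_nonneg A
  nlinarith

theorem ub_le (A : Mat) : 8 * (UU A * bb A) ≤ (bb A + 2 * UU A) ^ 2 := by
  nlinarith [sq_nonneg (bb A - 2 * UU A)]

/-- relative second order variation of the squared norm -/
noncomputable def Ee (A : Mat) (z : X) : ℝ :=
  4 / (bb A + 2 * UU A) * q2 A z + 8 / (bb A + 2 * UU A) * (lift z o * q1 A z)

/-- the comparison function -/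
noncomputable def hh (A : Mat) (z : X) : ℝ := 1 - 5/4 * Ee A z + 3/2 * Ee A z ^ 2

theorem continuous_Ee (A : Mat) : Continuous (Ee A) := by
  have h1 := continuous_q1 A
  have h2 := continuous_q2 A
  have h3 := continuous_lift_o
  unfold Ee
  fun_prop

theorem continuous_hh (A : Mat) : Continuous (hh A) := by
  have h1 := continuous_Ee A
  unfold hh
  fun_prop

theorem int_hh {t : ℝ} (ht : 0 ≤ t) (A : Mat) (hS : 0 < bb A + 2 * UU A) :
    ∫ z, hh A z ∂ν t = (ν t).real Set.univ - 5 / (bb A + 2 * UU A) * (∫ z, q2 A z ∂ν t)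
      + 96 / (bb A + 2 * UU A) ^ 2 * (∫ z, (lift z o * q1 A z) ^ 2 ∂ν t)
      + 24 / (bb A + 2 * UU A) ^ 2 * (∫ z, q2 A z ^ 2 ∂ν t) := by
  have h1 := continuous_q1 A
  have h2 := continuous_q2 A
  have h3 := continuous_lift_o
  set S := bb A + 2 * UU A
  have e1 : ∀ z, hh A z = ((1 + (- (5 / S)) * q2 A z) + (96 / S ^ 2) * (lift z o * q1 A z) ^ 2)
      + (24 / S ^ 2) * q2 A z ^ 2 + (lift z o * q1 A z) * (-10 / S + 96 / S ^ 2 * q2 A z) := by
    intro z
    have hSd : bb A + 2 * UU A = S := rfl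
    unfold hh Ee
    rw [hSd]
    field_simp
    ring
  have e2 : ∫ z, (lift z o * q1 A z) * (-10 / S + 96 / S ^ 2 * q2 A z) ∂ν t = 0 := by
    refine integral_odd ht (by fun_prop) (fun z => ?_)
    rw [lift_o_neg, q1_neg, q2_neg]
    ring
  simp only [e1]
  rw [integral_add (integrable_ν (by fun_prop)) (integrable_ν (by fun_prop)), e2,
    integral_add (integrable_ν (by fun_prop)) (integrable_ν (by fun_prop)),
    integral_add (integrable_ν (by fun_prop)) (integrable_ν (by fun_prop)),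
    integral_add (integrable_ν (by fun_prop)) (integrable_ν (by fun_prop)),
    integral_const_mul, integral_const_mul, integral_const_mul, integral_const]
  simp only [smul_eq_mul, mul_one]
  ring

/-- integral of a continuous function over the ball is monotone -/
theorem int_mono {t : ℝ} (ht : 0 ≤ t) {f g : X → ℝ} (hf : Continuous f) (hg : Continuous g)
    (h : ∀ z ∈ K t, f z ≤ g z) : ∫ z, f z ∂ν t ≤ ∫ z, g z ∂ν t := by
  refine integral_mono_ae (integrable_ν hf) (integrable_ν hg) ?_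
  exact (ae_restrict_iff' (measurableSet_K ht)).2 (Filter.Eventually.of_forall h)

theorem int_hh_le {t : ℝ} (ht : 0 ≤ t) (hs : Real.sinh t = 1 / 100) {A : Mat} (hA : IsSo A)
    (hS : 0 < bb A + 2 * UU A) :
    ∫ z, hh A z ∂ν t ≤ (ν t).real Set.univ - 1 / 25 * M t := by
  have h1 := continuous_q1 A
  have h2 := continuous_q2 A
  have h3 := continuous_lift_o
  have h4 := continuous_sq
  have hK : ∀ z ∈ K t, sq z ≤ 1 / 10000 := by
    intro z hz
    have := (mem_K ht z).1 hz
    rw [hs] at this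
    norm_num at this ⊢
    exact this
  rw [int_hh ht A hS, int_q2 ht, int_q1 ht]
  have hM : 0 ≤ M t := integral_nonneg (fun z => sq_nn z)
  have hM' : ∫ z, lift z o ^ 2 * sq z ∂ν t ≤ (10001 / 10000) * M t := by
    unfold M
    rw [← integral_const_mul]
    refine int_mono ht (by fun_prop) (by fun_prop) (fun z hz => ?_)
    rw [lift_o_sq]
    have e := hK z hz
    have e2 := sq_nn z
    have e3 : (1 : ℝ) + ∑ i, z i ^ 2 = 1 + sq z := rfl
    rw [e3]
    nlinarith
  have hM'' : 0 ≤ ∫ z, lift z o ^ 2 * sq z ∂ν t :=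
    integral_nonneg (fun z => mul_nonneg (sq_nonneg _) (sq_nn z))
  have hI22 : ∫ z, q2 A z ^ 2 ∂ν t ≤ (bb A + 2 * UU A) ^ 2 / 40000 * M t := by
    unfold M
    rw [← integral_const_mul]
    refine int_mono ht (by fun_prop) (by fun_prop) (fun z hz => ?_)
    have e := hK z hz
    have e2 := sq_nn z
    have e3 := q2_nonneg A z
    have e4 := q2_le hA z
    have e5 : q2 A z ^ 2 ≤ ((bb A + 2 * UU A) / 2 * sq z) ^ 2 := by gcongr
    have e6 : sq z ^ 2 ≤ 1 / 10000 * sq z := by nlinarith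
    calc q2 A z ^ 2 ≤ ((bb A + 2 * UU A) / 2 * sq z) ^ 2 := e5
      _ = (bb A + 2 * UU A) ^ 2 / 4 * sq z ^ 2 := by ring
      _ ≤ (bb A + 2 * UU A) ^ 2 / 4 * (1 / 10000 * sq z) := by gcongr
      _ = (bb A + 2 * UU A) ^ 2 / 40000 * sq z := by ring
  have hT := anti_bound' hA
  have hT0 : 0 ≤ ∑ j, (∑ i, uv A i * Bm A i j) ^ 2 := Finset.sum_nonneg (fun _ _ => sq_nonneg _)
  have hb := bb_nonneg A
  have hU := UU_nonneg A
  set T := ∑ j, (∑ i, uv A i * Bm A i j) ^ 2
  set M' := ∫ z, lift z o ^ 2 * sq z ∂ν t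
  set b := bb A
  set U := UU A
  set m := M t
  have hS2 : 0 < (b + 2 * U) ^ 2 := by positivity
  have k1 : 96 / (b + 2 * U) ^ 2 * (T * (M' / 4)) ≤
      96 / (b + 2 * U) ^ 2 * ((b * U / 2) * ((10001 / 10000) * m / 4)) := by
    gcongr
    linarith
  have k2 : 24 / (b + 2 * U) ^ 2 * ∫ z, q2 A z ^ 2 ∂ν t ≤
      24 / (b + 2 * U) ^ 2 * ((b + 2 * U) ^ 2 / 40000 * m) := by
    gcongr
  have k3 : 24 / (b + 2 * U) ^ 2 * ((b + 2 * U) ^ 2 / 40000 * m) = 6 / 10000 * m := by
    field_simp
    ring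
  have k4 : 5 / (b + 2 * U) * (m * (3 * U + b) / 4)
      - 96 / (b + 2 * U) ^ 2 * ((b * U / 2) * ((10001 / 10000) * m / 4)) - 6 / 10000 * m
      - 1 / 25 * m = m * (((5 / 4) * (3 * U + b) * (b + 2 * U) - 12 * (10001 / 10000) * (b * U)
        - (6 / 10000 + 1 / 25) * (b + 2 * U) ^ 2) / (b + 2 * U) ^ 2) := by
    field_simp
    ring
  have k5 : 0 ≤ (5 / 4) * (3 * U + b) * (b + 2 * U) - 12 * (10001 / 10000) * (b * U)
        - (6 / 10000 + 1 / 25) * (b + 2 * U) ^ 2 := by
    nlinarith [sq_nonneg (b - 2.46 * U), sq_nonneg b, sq_nonneg U]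
  have k6 : 0 ≤ m * (((5 / 4) * (3 * U + b) * (b + 2 * U) - 12 * (10001 / 10000) * (b * U)
        - (6 / 10000 + 1 / 25) * (b + 2 * U) ^ 2) / (b + 2 * U) ^ 2) := by positivity
  linarith

/-! ### pointwise bound -/

theorem Ee_ge {t : ℝ} (ht : 0 ≤ t) (hs : Real.sinh t = 1 / 100) {A : Mat} (hA : IsSo A)
    (hS : 0 < bb A + 2 * UU A) {z : X} (hz : z ∈ K t) : -(1/20) ≤ Ee A z := by
  have e1 : sq z ≤ 1 / 10000 := by
    have := (mem_K ht z).1 hz
    rw [hs] at this
    norm_num at this ⊢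
    exact this
  have e2 := sq_nn z
  have e3 := q2_nonneg A z
  have e4 := q1_sq_le hA z
  have e5 := ub_le A
  set S := bb A + 2 * UU A with hSd
  have e6 : lift z o ^ 2 = 1 + sq z := lift_o_sq z
  have e7 : 0 ≤ 4 / S * q2 A z := by positivity
  have e8 : (8 / S * (lift z o * q1 A z)) ^ 2 ≤ (1/20) ^ 2 := by
    have : (8 / S * (lift z o * q1 A z)) ^ 2 = 64 * (lift z o ^ 2 * q1 A z ^ 2) / S ^ 2 := by
      field_simp
      ring
    rw [this, e6, div_le_iff₀ (by positivity)]
    have f1 : 16 * q1 A z ^ 2 ≤ S ^ 2 * sq z := by nlinarith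
    have f2 : 0 ≤ q1 A z ^ 2 := sq_nonneg _
    have f3 : S ^ 2 * sq z ≤ S ^ 2 * (1 / 10000) := by gcongr
    have f4 : (1 + sq z) * q1 A z ^ 2 ≤ 2 * q1 A z ^ 2 := by nlinarith
    nlinarith
  have e9 := abs_le_of_sq_le_sq e8 (by norm_num)
  have e10 := (abs_le.1 e9).1
  unfold Ee
  rw [← hSd]
  linarith

theorem nrm_pow (z : X) (A : Mat) :
    nrm z A ^ (-(5 / 2) : ℝ) = (nrm z A ^ 2) ^ (-(5 / 4) : ℝ) := by
  rw [← Real.rpow_natCast (nrm z A) 2, ← Real.rpow_mul (nrm_nonneg z A)]
  norm_num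

theorem pointwise {t : ℝ} (ht : 0 ≤ t) (hs : Real.sinh t = 1 / 100) {A : Mat} (hA : IsSo A)
    (hS : 0 < bb A + 2 * UU A) {z : X} (hz : z ∈ K t) :
    nrm z A ^ (-(5 / 2) : ℝ) ≤ (bb A + 2 * UU A) ^ (-(5 / 4) : ℝ) * hh A z := by
  have h1 := Ee_ge ht hs hA hS hz
  have h2 : nrm z A ^ 2 = (bb A + 2 * UU A) * (1 + Ee A z) := by
    rw [norm_formula hA]
    unfold Ee
    field_simp
    ring
  rw [nrm_pow, h2, Real.mul_rpow hS.le (by linarith)]
  exact mul_le_mul_of_nonneg_left (rpow_ineq h1) (Real.rpow_nonneg hS.le _)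

theorem Bz_zero (A : Mat) (i : Fin 4) : Bz A 0 i = 0 := by simp [Bz]

theorem norm_zero_formula {A : Mat} (hA : IsSo A) : nrm 0 A ^ 2 = bb A + 2 * UU A := by
  rw [norm_formula hA]
  simp [q2, q1, Bz_zero, sq]

theorem M_pos {t : ℝ} (ht : 0 < t) : 0 < M t := by
  unfold M
  rw [integral_pos_iff_support_of_nonneg (fun z => sq_nn z) (integrable_ν continuous_sq)]
  have h1 : Function.support sq = {0}ᶜ := by
    ext z
    rw [Function.mem_support, Set.mem_compl_iff, Set.mem_singleton_iff, not_iff_not]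
    unfold sq
    rw [Finset.sum_eq_zero_iff_of_nonneg (fun i _ => sq_nonneg _)]
    constructor
    · intro h; ext i
      exact pow_eq_zero_iff (two_ne_zero) |>.1 (h i (Finset.mem_univ _))
    · rintro rfl i _; simp
  rw [h1]
  have h2 : ν t ({0}ᶜ : Set X) = ν t Set.univ := by
    refine measure_congr ?_
    rw [ae_eq_univ, compl_compl]
    have h3 : μ ({0} : Set X) = 0 := by
      rw [μ_null_iff]; exact measure_singleton 0
    exact le_antisymm ((Measure.restrict_apply_le _ _).trans h3.le) bot_le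
  rw [h2, ν, Measure.restrict_apply_univ]
  have h3 := vb_pos ht
  unfold vb at h3
  exact (ENNReal.toReal_pos_iff.1 h3).1

theorem at_zero {t : ℝ} (ht : 0 ≤ t) (hs : Real.sinh t = 1 / 100) {A : Mat} (hA : IsSo A)
    (h0 : A ≠ 0) :
    ∫⁻ z in K t, ENNReal.ofReal (nrm z A ^ (-(5 / 2) : ℝ)) ∂μ ≤
      ENNReal.ofReal ((vb t - 1 / 25 * M t) * nrm 0 A ^ (-(5 / 2) : ℝ)) := by
  have hn : 0 < nrm 0 A := lt_of_le_of_ne (nrm_nonneg 0 A) (fun h => h0 ((nrm_eq_zero 0 A).1 h.symm))
  have hS : 0 < bb A + 2 * UU A := by rw [← norm_zero_formula hA]; positivity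
  have hp : 0 ≤ (bb A + 2 * UU A) ^ (-(5 / 4) : ℝ) := Real.rpow_nonneg hS.le _
  have hc : Continuous (fun z => (bb A + 2 * UU A) ^ (-(5 / 4) : ℝ) * hh A z) := by
    have := continuous_hh A
    fun_prop
  calc ∫⁻ z in K t, ENNReal.ofReal (nrm z A ^ (-(5 / 2) : ℝ)) ∂μ
      ≤ ∫⁻ z in K t, ENNReal.ofReal ((bb A + 2 * UU A) ^ (-(5 / 4) : ℝ) * hh A z) ∂μ := by
        refine setLIntegral_mono' (measurableSet_K ht) (fun z hz => ?_)
        exact ENNReal.ofReal_le_ofReal (pointwise ht hs hA hS hz)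
    _ = ENNReal.ofReal (∫ z, (bb A + 2 * UU A) ^ (-(5 / 4) : ℝ) * hh A z ∂ν t) := by
        rw [ofReal_integral_eq_lintegral_ofReal (integrable_ν hc)]
        · rfl
        · refine (ae_restrict_iff' (measurableSet_K ht)).2 (Filter.Eventually.of_forall ?_)
          intro z hz
          exact (Real.rpow_nonneg (nrm_nonneg z A) _).trans (pointwise ht hs hA hS hz)
    _ ≤ _ := by
        refine ENNReal.ofReal_le_ofReal ?_
        rw [integral_const_mul, nrm_pow, norm_zero_formula hA, mul_comm]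
        refine mul_le_mul_of_nonneg_right ?_ hp
        have h := int_hh_le ht hs hA hS
        have e : (ν t).real Set.univ = vb t := by
          unfold vb Measure.real ν K
          rw [Measure.restrict_apply_univ]
        rw [e] at h
        exact h

theorem isSo_conj {A : Mat} (hA : IsSo A) {g : GLI} (hg : InG g) :
    IsSo ((g⁻¹ : GLI).val * A * g.val) := by
  have h1 : (g.val)ᵀ * J = J * (g⁻¹ : GLI).val := by
    rw [hg.inv_val]
    rw [← Matrix.mul_assoc, ← Matrix.mul_assoc, J_mul_J, Matrix.one_mul]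
  have h2 : ((g⁻¹ : GLI).val)ᵀ * J = J * g.val := by
    rw [hg.inv_val, Matrix.transpose_mul, Matrix.transpose_mul, Matrix.transpose_transpose,
      J_transpose]
    rw [Matrix.mul_assoc, Matrix.mul_assoc, J_mul_J, Matrix.mul_one]
  unfold IsSo at *
  rw [Matrix.transpose_mul, Matrix.transpose_mul]
  have h3 : Aᵀ * J = - (J * A) := by
    rw [← sub_eq_zero, sub_neg_eq_add]; exact hA
  calc (g.val)ᵀ * (Aᵀ * ((g⁻¹ : GLI).val)ᵀ) * J + J * ((g⁻¹ : GLI).val * A * g.val)
      = (g.val)ᵀ * Aᵀ * (((g⁻¹ : GLI).val)ᵀ * J) + (J * (g⁻¹ : GLI).val) * A * g.val := by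
        simp only [Matrix.mul_assoc]
    _ = (g.val)ᵀ * (Aᵀ * J) * g.val + ((g.val)ᵀ * J) * A * g.val := by
        rw [h2, ← h1]; simp only [Matrix.mul_assoc]
    _ = 0 := by
        rw [h3]
        simp only [Matrix.mul_assoc, Matrix.mul_neg, Matrix.neg_mul]
        simp

end Pool.Agent.helper21.WB.MV

namespace Pool.Agent.helper21.WB
open MV

/-- [I1] The function `|A|_y^(-5/2)` is strictly superharmonic, in the mean value form for small balls. -/
theorem mean_value : ∃ t c : ℝ, 0 < t ∧ t ≤ 1 ∧ 0 < c ∧ c < 1 ∧ ∀ A : Mat, IsSo A → A ≠ 0 → ∀ y : X,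
    ∫⁻ z in {z | hd y z ≤ t}, ENNReal.ofReal (nrm z A ^ (-(5 / 2) : ℝ)) ∂μ ≤
      ENNReal.ofReal ((1 - c) * vb t * nrm y A ^ (-(5 / 2) : ℝ)) := by
  have hs : Real.sinh (Real.arsinh (1 / 100)) = 1 / 100 := Real.sinh_arsinh _
  have ht : 0 < Real.arsinh (1 / 100) := Real.arsinh_pos_iff.2 (by norm_num)
  have ht1 : Real.arsinh (1 / 100) ≤ 1 := by
    rw [← Real.sinh_le_sinh, hs]
    have : (1 : ℝ) ≤ Real.sinh 1 := Real.self_le_sinh_iff.2 (by norm_num)
    linarith
  set t := Real.arsinh (1 / 100) with htd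
  have hv := vb_pos ht
  have hM := M_pos ht
  have hMv : M t ≤ 1 / 10000 * vb t := by
    have h := int_mono ht.le continuous_sq (g := fun _ => (1 / 10000 : ℝ)) continuous_const
      (fun z hz => by
        have := (mem_K ht.le z).1 hz
        rw [hs] at this
        norm_num at this ⊢
        exact this)
    rw [integral_const, smul_eq_mul] at h
    have e : (ν t).real Set.univ = vb t := by
      unfold vb Measure.real ν K
      rw [Measure.restrict_apply_univ]
    rw [e] at h
    unfold M; linarith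
  refine ⟨t, 1 / 25 * (M t / vb t), ht, ht1, by positivity, ?_, ?_⟩
  · have : M t / vb t ≤ 1 / 10000 := by
      rw [div_le_iff₀ hv]; exact hMv
    linarith
  · intro A hA h0 y
    have hg := bst_inG y
    have hy := act_bst y
    set g := bst y
    set A' : Mat := (g⁻¹ : GLI).val * A * g.val with hA'
    have hAA' : A = g.val * A' * (g⁻¹ : GLI).val := by
      have h2 : g.val * (g⁻¹ : GLI).val = 1 := by
        rw [← Units.val_mul, mul_inv_cancel, Units.val_one]
      rw [hA']
      calc A = (g.val * (g⁻¹ : GLI).val) * A * (g.val * (g⁻¹ : GLI).val) := by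
            rw [h2, Matrix.one_mul, Matrix.mul_one]
        _ = _ := by simp only [Matrix.mul_assoc]
    have hA0 : A' ≠ 0 := by
      intro h
      apply h0
      rw [hAA', h]; simp
    have hn : ∀ w : X, nrm (act g w) A = nrm w A' := by
      intro w
      conv_lhs => rw [hAA']
      exact nrm_conj hg w A'
    have hpre : act g ⁻¹' {z | hd y z ≤ t} = K t := by
      ext w
      show hd y (act g w) ≤ t ↔ hd 0 w ≤ t
      rw [← hy, hd_act hg]
    have hmeas : MeasurableSet {z : X | hd y z ≤ t} := (isCompact_hball y t).measurableSet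
    have hmp := (measurePreserving_act hg).restrict_preimage hmeas
    rw [hpre] at hmp
    have hfm : Measurable (fun z : X => ENNReal.ofReal (nrm z A ^ (-(5 / 2) : ℝ))) := by
      have := (continuous_nrm A).measurable
      fun_prop
    rw [← hmp.lintegral_comp hfm]
    simp only [hn]
    have h := at_zero ht.le hs (isSo_conj hA hg) hA0
    have hn0 : nrm y A = nrm 0 A' := by rw [← hn 0, hy]
    rw [hn0]
    have e : (1 - 1 / 25 * (M t / vb t)) * vb t = vb t - 1 / 25 * M t := by
      field_simp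
    rw [e]
    exact h

end Pool.Agent.helper21.WB
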