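import Pool.Agent.helper88.WB.MBase
import Pool.Agent.helper46.WB.H1
import Pool.Agent.helper40.WB.I3

/-!
WB-ME1 (MP_7b8095_gt, part M of the project of helper21, sub-lead helper88): almost every boundary
point of a lattice of `O^+(4,1)` is conical.
-/

set_option autoImplicit false
open Matrix MeasureTheory Filter Topology

namespace Pool.Agent.helper88.WB.CN
open Pool.Agent.helper21.WB

theorem bl_nonpos {v w : I → ℝ} (hv : bl v v ≤ 0) (hv0 : 0 < v o) (hw : bl w w ≤ 0) (hw0 : 0 < w o) :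
    bl v w ≤ 0 := by
  rw [bl_apply] at *
  have e1 : ∑ i : Fin 4, v (Sum.inl i) * v (Sum.inl i) = ∑ i : Fin 4, v (Sum.inl i) ^ 2 :=
    Finset.sum_congr rfl (fun i _ => by ring)
  have e2 : ∑ i : Fin 4, w (Sum.inl i) * w (Sum.inl i) = ∑ i : Fin 4, w (Sum.inl i) ^ 2 :=
    Finset.sum_congr rfl (fun i _ => by ring)
  rw [e1] at hv; rw [e2] at hw
  have cs := cs_spatial (fun i => v (Sum.inl i)) (fun i => w (Sum.inl i))
  have hw1 : 0 ≤ ∑ i : Fin 4, w (Sum.inl i) ^ 2 := Finset.sum_nonneg (fun i _ => sq_nonneg _)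
  have hv1 : 0 ≤ ∑ i : Fin 4, v (Sum.inl i) ^ 2 := Finset.sum_nonneg (fun i _ => sq_nonneg _)
  set a := ∑ i : Fin 4, v (Sum.inl i) ^ 2
  set b := ∑ i : Fin 4, w (Sum.inl i) ^ 2
  set c := ∑ i : Fin 4, v (Sum.inl i) * w (Sum.inl i)
  have hlt : c ^ 2 ≤ (v o * w o) ^ 2 := by
    have h1 : a ≤ v o ^ 2 := by nlinarith
    have h2 : b ≤ w o ^ 2 := by nlinarith
    calc c ^ 2 ≤ a * b := cs
      _ ≤ v o ^ 2 * w o ^ 2 := by gcongr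
      _ = (v o * w o) ^ 2 := by ring
  have := abs_le_of_sq_le_sq hlt (by positivity)
  have := (abs_le.1 this).2
  linarith

theorem bl_nv_self (x : E) : bl (nv x) (nv x) = 0 := by
  rw [bl_nv]; simp

/-- a null vector is orthogonal to at most one of the null vectors `nv x` -/
theorem eq_of_bl_zero {ξ : I → ℝ} (hξ : NullF ξ) {x y : E} (hx : bl ξ (nv x) = 0)
    (hy : bl ξ (nv y) = 0) : x = y := by
  by_contra hne
  have hp : 0 < ‖x - y‖ := norm_pos_iff.2 (sub_ne_zero.2 hne)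
  have h1 : bl (nv x + nv y) (nv x + nv y) = - ‖x - y‖ ^ 2 := by
    rw [bl_add_left, bl_add_right, bl_add_right, bl_nv_self, bl_nv_self, bl_comm (nv y), bl_nv]
    ring
  have h2 := bl_neg (v := nv x + nv y) (w := ξ) (by rw [h1]; nlinarith)
    (by rw [Pi.add_apply]; linarith [nv_o_pos x, nv_o_pos y]) hξ.1.le hξ.2
  rw [bl_comm, bl_add_right, hx, hy] at h2
  linarith

theorem hb_hp {ξ : I → ℝ} (x : E) {t : ℝ} (ht : 0 < t) :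
    hb ξ (hp x t) = t⁻¹ * (- bl ξ (nv x) + t ^ 2 / 2 * (- bl ξ ninf)) := by
  unfold hb
  rw [lift_hp x ht, bl_smul_right, bl_add_right, bl_smul_right]
  ring

theorem ninf_o : ninf o = 1 := by simp [ninf]

/-- the horoballs used by the rays -/
def Bad (Ξ : Set (I → ℝ)) : Set E := {x | ∃ ξ ∈ Ξ, (∃ z, hb ξ z ≤ 1) ∧ bl ξ (nv x) = 0}

theorem countable_bad {Ξ : Set (I → ℝ)} (hΞ : Horo Ξ) : (Bad Ξ).Countable := by
  have h1 : {ξ | ξ ∈ Ξ ∧ ∃ z, hb ξ z ≤ 1}.Countable := by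
    have : {ξ | ξ ∈ Ξ ∧ ∃ z, hb ξ z ≤ 1} ⊆
        ⋃ n : ℕ, {ξ | ξ ∈ Ξ ∧ ∃ z, hd 0 z ≤ (n : ℝ) ∧ hb ξ z ≤ 1} := by
      rintro ξ ⟨h, z, hz⟩
      obtain ⟨n, hn⟩ := exists_nat_ge (hd 0 z)
      exact Set.mem_iUnion.2 ⟨n, h, z, hn, hz⟩
    exact (Set.countable_iUnion (fun n : ℕ => (hΞ.locfin 0 n).countable)).mono this
  have h2 : Bad Ξ ⊆ ⋃ ξ ∈ {ξ | ξ ∈ Ξ ∧ ∃ z, hb ξ z ≤ 1}, {x : E | bl ξ (nv x) = 0} := by
    rintro x ⟨ξ, hξ, hz, hx⟩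
    exact Set.mem_biUnion (show ξ ∈ {ξ | ξ ∈ Ξ ∧ ∃ z, hb ξ z ≤ 1} from ⟨hξ, hz⟩) hx
  refine (h1.biUnion (fun ξ hξ => ?_)).mono h2
  refine Set.Subsingleton.countable ?_
  intro x hx y hy
  exact eq_of_bl_zero (hΞ.null ξ hξ.1) hx hy

/-- rays ending outside the bad set leave the horoballs arbitrarily far out -/
theorem exists_out {Ξ : Set (I → ℝ)} (hΞ : Horo Ξ) {x : E} (hx : x ∉ Bad Ξ) {ε : ℝ} (hε : 0 < ε) :
    ∃ t : ℝ, 0 < t ∧ t < ε ∧ ∀ ξ ∈ Ξ, ¬ hb ξ (hp x t) < 1 := by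
  by_contra hcon
  push Not at hcon
  -- the open sets
  let O : (I → ℝ) → Set ℝ := fun ξ =>
    {t | 0 < t ∧ - bl ξ (nv x) + t ^ 2 / 2 * (- bl ξ ninf) < t}
  have hO : ∀ ξ, IsOpen (O ξ) := by
    intro ξ
    exact (isOpen_lt continuous_const continuous_id).inter
      (isOpen_lt (by fun_prop) continuous_id)
  have hmem : ∀ ξ t, t ∈ O ξ ↔ 0 < t ∧ hb ξ (hp x t) < 1 := by
    intro ξ t
    constructor
    · rintro ⟨h1, h2⟩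
      refine ⟨h1, ?_⟩
      rw [hb_hp x h1, inv_mul_lt_iff₀ h1, mul_one]
      exact h2
    · rintro ⟨h1, h2⟩
      rw [hb_hp x h1, inv_mul_lt_iff₀ h1, mul_one] at h2
      exact ⟨h1, h2⟩
  obtain ⟨ξ₀, hξ₀, h₀⟩ := hcon (ε / 2) (by linarith) (by linarith)
  have hsub : Set.Ioo 0 ε ⊆ O ξ₀ := by
    refine IsPreconnected.subset_left_of_subset_union (v := ⋃ ξ ∈ {ξ | ξ ∈ Ξ ∧ ξ ≠ ξ₀}, O ξ)
      (hO ξ₀) (isOpen_biUnion (fun ξ _ => hO ξ)) ?_ ?_ ?_ isPreconnected_Ioo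
    · rw [Set.disjoint_left]
      intro t ht ht'
      rw [Set.mem_iUnion₂] at ht'
      obtain ⟨ξ, ⟨h1, h2⟩, h3⟩ := ht'
      apply h2
      exact hΞ.disj ξ h1 ξ₀ hξ₀ (hp x t) ((hmem ξ t).1 h3).2.le ((hmem ξ₀ t).1 ht).2.le
    · intro t ht
      obtain ⟨ξ, h1, h2⟩ := hcon t ht.1 ht.2
      by_cases h : ξ = ξ₀
      · left; rw [← h]; exact (hmem ξ t).2 ⟨ht.1, h2⟩
      · right
        exact Set.mem_biUnion (show ξ ∈ {ξ | ξ ∈ Ξ ∧ ξ ≠ ξ₀} from ⟨h1, h⟩) ((hmem ξ t).2 ⟨ht.1, h2⟩)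
    · exact ⟨ε / 2, ⟨by linarith, by linarith⟩, (hmem ξ₀ _).2 ⟨by linarith, h₀⟩⟩
  have hn := hΞ.null ξ₀ hξ₀
  have hA : bl ξ₀ (nv x) ≤ 0 := bl_nonpos hn.1.le hn.2 (bl_nv_self x).le (nv_o_pos x)
  have hC : bl ξ₀ ninf ≤ 0 := bl_nonpos hn.1.le hn.2 bl_ninf.le (by rw [ninf_o]; norm_num)
  apply hx
  refine ⟨ξ₀, hξ₀, ⟨_, h₀.le⟩, ?_⟩
  by_contra hne
  have hApos : 0 < - bl ξ₀ (nv x) := by
    rcases hA.lt_or_eq with h | h
    · linarith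
    · exact absurd h hne
  set t := min (ε / 2) (- bl ξ₀ (nv x)) with ht
  have ht0 : 0 < t := lt_min (by linarith) hApos
  have ht1 : t < ε := lt_of_le_of_lt (min_le_left _ _) (by linarith)
  have ht2 : t ≤ - bl ξ₀ (nv x) := min_le_right _ _
  have h3 := (hsub ⟨ht0, ht1⟩).2
  have h4 : 0 ≤ t ^ 2 / 2 * (- bl ξ₀ ninf) := mul_nonneg (by positivity) (by linarith)
  linarith

end Pool.Agent.helper88.WB.CN

namespace Pool.Agent.helper88.WB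
open Pool.Agent.helper21.WB CN

/-- [ME1] almost every boundary point is conical (from `exists_Z` and `exists_horo`). -/
theorem conical {Γ : Subgroup GLI} {F₀ : Set X} (hL : Lat Γ F₀) : ∃ r : ℝ, ∀ᵐ x : E,
    ∀ ε : ℝ, 0 < ε → ∃ t : ℝ, 0 < t ∧ t < ε ∧ ∃ γ ∈ Γ, hd (hp x t) (act γ 0) ≤ r := by
  obtain ⟨η₁, hη₁, h1⟩ := exists_Z
  obtain ⟨η₂, hη₂, h2⟩ := exists_horo
  obtain ⟨C, hC, h1⟩ := h1 (min η₁ η₂) (lt_min hη₁ hη₂) (min_le_left _ _)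
  obtain ⟨Z, hZ1, hZ2, -⟩ := h1 Γ F₀ hL
  obtain ⟨Ξ, hΞ, hΞ1, hΞ2, -⟩ := h2 (min η₁ η₂) (lt_min hη₁ hη₂) (min_le_right _ _) Γ hL.toDisc
  refine ⟨1 + ∑ z ∈ Z, hd z 0, ?_⟩
  have hnull : (volume : Measure E) (Bad Ξ) = 0 := (countable_bad hΞ).measure_zero _
  have hae : ∀ᵐ x : E, x ∉ Bad Ξ := measure_eq_zero_iff_ae_notMem.1 hnull
  filter_upwards [hae] with x hx ε hε
  obtain ⟨t, ht0, ht1, ht2⟩ := exists_out hΞ hx hε
  refine ⟨t, ht0, ht1, ?_⟩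
  have hd' : hp x t ∉ Deep Γ (min η₁ η₂) := by
    rw [hΞ2]
    rintro ⟨ξ, h3, h4⟩
    exact ht2 ξ h3 h4
  obtain ⟨z, hz, γ, hγ, h5⟩ := hZ2 _ hd'
  refine ⟨γ, hγ, ?_⟩
  have h6 := hd_triangle (hp x t) (act γ z) (act γ 0)
  rw [hd_act (hL.inG γ hγ)] at h6
  have h7 : hd z 0 ≤ ∑ z ∈ Z, hd z 0 :=
    Finset.single_le_sum (f := fun z => hd z 0) (fun z _ => hd_nonneg z 0) hz
  linarith

end Pool.Agent.helper88.WB
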